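import Mathlib

set_option maxHeartbeats 400000

open Finset
open scoped ENNReal

namespace Pool.Agent.Results.MP_6095cf_an.Counter

section defs
variable {X : Type} [NormedAddCommGroup X] [NormedSpace ℝ X] (e : ℕ → X) (f : ℕ → X →L[ℝ] ℝ)

/-- coordinate projection onto a finite set -/
noncomputable def P (A : Finset ℕ) (x : X) : X := ∑ i ∈ A, f i x • e i

/-- semi-normalized Markushevich basis with uniformly bounded partial sums (indexed from 0) -/
def IsSchauder : Prop :=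
  (∀ i j, f i (e j) = if i = j then 1 else 0) ∧ Dense (Submodule.span ℝ (Set.range e) : Set X) ∧
  (∀ x, (∀ i, f i x = 0) → x = 0) ∧ (∃ C : ℝ, ∀ i, ‖e i‖ ≤ C ∧ ‖f i‖ ≤ C) ∧
  ∃ C : ℝ, ∀ m x, ‖P e f (range m) x‖ ≤ C * ‖x‖

/-- A is a greedy set for x -/
def Greedy (A : Finset ℕ) (x : X) : Prop := ∀ i ∈ A, ∀ j ∉ A, |f j x| ≤ |f i x|

/-- n-quasi-greedy -/
def QG (n : ℕ → ℕ) : Prop :=
  ∃ C : ℝ, ∀ x k A, A.card = n k → Greedy f A x → ‖P e f A x‖ ≤ C * ‖x‖

/-- n-partially greedy -/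
def PG (n : ℕ → ℕ) : Prop :=
  ∃ C : ℝ, ∀ x k A, A.card = n k → Greedy f A x →
    ‖x - P e f A x‖ ≤ C * ‖x - P e f (range (n k)) x‖

/-- n-order-conservative -/
def OC (n : ℕ → ℕ) : Prop :=
  ∃ C : ℝ, ∀ (A B : Finset ℕ) k, A.card = B.card → (∀ a ∈ A, a < n k) → (∀ b ∈ B, n k ≤ b) →
    ‖∑ i ∈ A, e i‖ ≤ C * ‖∑ i ∈ B, e i‖

end defs

def u : ℕ → ℕ
  | 0 => 2
  | l + 1 => u l ^ 4

lemma u2 (l : ℕ) : l + 2 ≤ u l := by
  induction l with
  | zero => exact le_rfl
  | succ l ih =>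
    have : u l * 2 ≤ u l * u l ^ 3 := Nat.mul_le_mul_left _ (le_trans (by omega)
      (Nat.le_self_pow (by norm_num) _))
    have h : u l * u l ^ 3 = u (l + 1) := by rw [u]; ring
    omega

lemma umono : StrictMono u := strictMono_nat_of_lt_succ fun l => by
  have := u2 l
  calc u l = u l ^ 1 := (pow_one _).symm
    _ < u l ^ 4 := Nat.pow_lt_pow_right (by omega) (by norm_num)

lemma u1 (l : ℕ) : (1:ℝ) ≤ u l := by have := u2 l; exact_mod_cast (by omega : 1 ≤ u l)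

def J (l : ℕ) : Finset ℕ := Ico (u (l + 1)) (u (l + 1) + u l ^ 2)

lemma Jc (l : ℕ) : (J l).card = u l ^ 2 := by simp [J]

def AU (N : ℕ) (ω : ℝ) (s : Finset ℕ) (c : ℕ → ℝ) : Prop := s.card ≤ N ∧ ∀ i ∈ s, |c i| ≤ ω

def AW (l : ℕ) (s : Finset ℕ) (c : ℕ → ℝ) : Prop :=
  AU (2 * u l ^ 2) (1 / u l) s c ∧ ∃ r, ∀ i ∈ J l, (i ∈ s ↔ i < r) ∧ (i ∈ s → c i = 1 / u l)

def Adm (s : Finset ℕ) (c : ℕ → ℝ) : Prop :=
  AU 1 1 s c ∨ (∃ l, AU (u (l + 1)) (1 / u l ^ 2) s c) ∨ ∃ l, AW l s c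

lemma AU.mono {N ω s t c} (h : AU N ω s c) (ht : t ⊆ s) : AU N ω t c :=
  ⟨(card_le_card ht).trans h.1, fun i hi => h.2 i (ht hi)⟩

lemma c1 {s c} (h : Adm s c) {i : ℕ} (hi : i ∈ s) : |c i| ≤ 1 := by
  rcases h with h | ⟨l, h⟩ | ⟨l, h, -⟩
  · exact h.2 i hi
  · exact (h.2 i hi).trans ((div_le_one (by have := u1 l; positivity)).2 (one_le_pow₀ (u1 l)))
  · exact (h.2 i hi).trans ((div_le_one (by have := u1 l; positivity)).2 (u1 l))

abbrev Φ : Type := {p : Finset ℕ × (ℕ → ℝ) // Adm p.1 p.2}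
abbrev L : Type := lp (fun _ : Φ => ℝ) ∞

lemma eb (i : ℕ) (φ : Φ) : ‖if i ∈ φ.1.1 then φ.1.2 i else 0‖ ≤ 1 := by
  split_ifs with h
  · exact c1 φ.2 h
  · simp

noncomputable def e0 (i : ℕ) : L := ⟨fun φ => if i ∈ φ.1.1 then φ.1.2 i else 0,
  memℓp_infty ⟨1, by rintro _ ⟨φ, rfl⟩; exact eb i φ⟩⟩

noncomputable def ev (φ : Φ) : L →L[ℝ] ℝ :=
  LinearMap.mkContinuous ⟨⟨fun y => y φ, fun _ _ => rfl⟩, fun _ _ => rfl⟩ 1
    fun y => by rw [one_mul]; exact lp.norm_apply_le_norm ENNReal.top_ne_zero y φ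

noncomputable def X0 : Submodule ℝ L := (Submodule.span ℝ (Set.range e0)).topologicalClosure

def X : Type := X0
noncomputable instance : NormedAddCommGroup X := inferInstanceAs (NormedAddCommGroup X0)
noncomputable instance : NormedSpace ℝ X := inferInstanceAs (NormedSpace ℝ X0)
instance : CompleteSpace X := (Submodule.isClosed_topologicalClosure _).completeSpace_coe

noncomputable def e (i : ℕ) : X :=
  ⟨e0 i, Submodule.le_topologicalClosure _ (Submodule.subset_span ⟨i, rfl⟩)⟩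

def sg (i : ℕ) : Φ := ⟨({i}, fun _ => 1), Or.inl ⟨by simp, by simp⟩⟩

noncomputable def f (i : ℕ) : X →L[ℝ] ℝ := (ev (sg i)).comp X0.subtypeL

lemma fe (i j : ℕ) : f i (e j) = if i = j then 1 else 0 := by
  change (if j ∈ ({i} : Finset ℕ) then (1:ℝ) else 0) = _
  simp [eq_comm]

lemma rep (x : X) (φ : Φ) : x.1 φ = ∑ i ∈ φ.1.1, φ.1.2 i * f i x := by
  have h : X0 ≤ (ev φ - ∑ i ∈ φ.1.1, φ.1.2 i • ev (sg i)).ker := by
    refine Submodule.topologicalClosure_minimal _ (Submodule.span_le.2 ?_)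
      (ContinuousLinearMap.isClosed_ker _)
    rintro _ ⟨j, rfl⟩
    change ev φ (e0 j) - (∑ i ∈ φ.1.1, φ.1.2 i • ev (sg i)) (e0 j) = 0
    rw [_root_.sum_apply]
    have : ∀ i, (φ.1.2 i • ev (sg i)) (e0 j) = φ.1.2 i * if i = j then 1 else 0 := fun i => by
      rw [← fe]; rfl
    simp only [this, mul_ite, mul_one, mul_zero, sum_ite_eq']
    exact sub_self _
  have := h x.2
  change ev φ x.1 - (∑ i ∈ φ.1.1, φ.1.2 i • ev (sg i)) x.1 = 0 at this
  rw [_root_.sum_apply, sub_eq_zero] at this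
  exact this

lemma lo (x : X) {s c} (h : Adm s c) : |∑ i ∈ s, c i * f i x| ≤ ‖x‖ := by
  have := lp.norm_apply_le_norm ENNReal.top_ne_zero x.1 ⟨(s, c), h⟩
  rwa [rep] at this

lemma hi (x : X) {C : ℝ} (hC : 0 ≤ C) (h : ∀ s c, Adm s c → |∑ i ∈ s, c i * f i x| ≤ C) :
    ‖x‖ ≤ C := lp.norm_le_of_forall_le (f := x.1) hC fun φ => by rw [rep]; exact h _ _ φ.2

lemma fl (x : X) (i : ℕ) : |f i x| ≤ ‖x‖ := by
  have := lo x (sg i).2
  simpa [sg] using this

lemma fs (A : Finset ℕ) (a : ℕ → ℝ) (j : ℕ) :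
    f j (∑ i ∈ A, a i • e i) = if j ∈ A then a j else 0 := by
  simp [fe]

lemma sP (A s : Finset ℕ) (a c : ℕ → ℝ) :
    ∑ i ∈ s, c i * f i (∑ i ∈ A, a i • e i) = ∑ i ∈ s ∩ A, c i * a i := by
  simp only [fs, mul_ite, mul_zero]
  rw [sum_ite_mem]

lemma bd {s : Finset ℕ} {c a : ℕ → ℝ} {ω t : ℝ} {N : ℕ} (hN : s.card ≤ N) (hω : 0 ≤ ω)
    (ht : 0 ≤ t) (h1 : ∀ i ∈ s, |c i| ≤ ω) (h2 : ∀ i ∈ s, |a i| ≤ t) :
    |∑ i ∈ s, c i * a i| ≤ N * (ω * t) := by
  refine (abs_sum_le_sum_abs _ _).trans ((sum_le_card_nsmul _ _ (ω * t) fun i hi => ?_).trans ?_)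
  · rw [abs_mul]; exact mul_le_mul (h1 i hi) (h2 i hi) (abs_nonneg _) hω
  · rw [nsmul_eq_mul]; gcongr

lemma sch : IsSchauder e f := by
  refine ⟨fe, ?_, fun x h => norm_le_zero_iff.1 (hi x le_rfl fun s c _ => by simp [h]),
    ⟨1, fun i => ⟨lp.norm_le_of_forall_le (f := e0 i) zero_le_one (eb i),
      (f i).opNorm_le_bound zero_le_one fun x => by simpa using fl x i⟩⟩,
    1, fun m x => hi _ (by positivity) fun s c h => ?_⟩
  · have key : ∀ y ∈ Submodule.span ℝ (Set.range e0),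
        ∃ z : X, z ∈ Submodule.span ℝ (Set.range e) ∧ z.1 = y := by
      intro y hy
      induction hy using Submodule.span_induction with
      | mem y h => obtain ⟨i, rfl⟩ := h; exact ⟨e i, Submodule.subset_span ⟨i, rfl⟩, rfl⟩
      | zero => exact ⟨0, Submodule.zero_mem _, rfl⟩
      | add y z _ _ h1 h2 =>
        obtain ⟨a, a1, rfl⟩ := h1
        obtain ⟨b, b1, rfl⟩ := h2
        exact ⟨a + b, Submodule.add_mem _ a1 b1, rfl⟩
      | smul c y _ h1 =>
        obtain ⟨a, a1, rfl⟩ := h1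
        exact ⟨c • a, Submodule.smul_mem _ _ a1, rfl⟩
    refine fun x => Metric.mem_closure_iff.2 fun ε hε => ?_
    have hx : x.1 ∈ closure (Submodule.span ℝ (Set.range e0) : Set L) := x.2
    obtain ⟨y, y1, y2⟩ := Metric.mem_closure_iff.1 hx ε hε
    obtain ⟨z, z1, rfl⟩ := key y y1
    exact ⟨z, z1, by rw [dist_eq_norm] at y2 ⊢; exact y2⟩
  · rw [P, sP, one_mul]
    refine lo x ?_
    rcases h with h | ⟨l, h⟩ | ⟨l, h, r, hr⟩
    · exact Or.inl (h.mono inter_subset_left)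
    · exact Or.inr (Or.inl ⟨l, h.mono inter_subset_left⟩)
    · refine Or.inr (Or.inr ⟨l, h.mono inter_subset_left, min r m, fun i hi => ⟨?_, fun h' =>
        (hr i hi).2 (mem_inter.1 h').1⟩⟩)
      rw [mem_inter, (hr i hi).1, mem_range, lt_min_iff]

lemma qg : QG e f u := by
  refine ⟨3, fun x k A hA hG => hi _ (by positivity) fun s c h => ?_⟩
  have n0 := norm_nonneg x
  rw [P, sP]
  rcases h with h | ⟨l, h⟩ | ⟨l, h, r, hr⟩
  · linarith [lo x (Or.inl (h.mono (inter_subset_left (s₂ := A))))]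
  · linarith [lo x (Or.inr (Or.inl ⟨l, h.mono (inter_subset_left (s₂ := A))⟩))]
  have ul := u1 l
  rcases le_or_gt k l with hk | hk
  · have := bd (s := s ∩ A) (N := u l) ((card_le_card inter_subset_right).trans
      (hA.le.trans (umono.monotone hk))) (by positivity) n0
      (fun i hi => h.2 i (mem_inter.1 hi).1) fun i _ => fl x i
    rw [← mul_assoc, mul_one_div_cancel (by positivity)] at this
    linarith
  obtain ⟨B, hB, cB⟩ := exists_subset_card_eq (s := A) (n := u (l + 1))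
    (hA ▸ umono.monotone hk)
  have th : ∀ j ∉ A, |f j x| ≤ ‖x‖ / u l ^ 2 := fun j hj => by
    have a1 := lo x (s := B) (c := fun i => if 0 ≤ f i x then 1 / u l ^ 2 else -(1 / u l ^ 2))
      (Or.inr (Or.inl ⟨l, cB.le, fun i _ => by
        dsimp only
        split_ifs <;> simp [abs_of_nonneg]⟩))
    have a2 := card_nsmul_le_sum B (fun i => (if 0 ≤ f i x then 1 / (u l:ℝ) ^ 2 else
      -(1 / (u l:ℝ) ^ 2)) * f i x) (1 / (u l:ℝ) ^ 2 * |f j x|) fun i hi => by
        have := hG i (hB hi) j hj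
        have p : (0:ℝ) ≤ 1 / u l ^ 2 := by positivity
        split_ifs with h0
        · rw [abs_of_nonneg h0] at this; gcongr
        · rw [abs_of_neg (not_le.1 h0)] at this
          rw [neg_mul, ← mul_neg]; gcongr
    rw [cB, nsmul_eq_mul, u] at a2
    have a3 := a2.trans ((le_abs_self _).trans a1)
    rw [le_div_iff₀ (by positivity)]
    refine le_trans (le_of_eq ?_) a3
    push_cast; field_simp
  have b1 := lo x (s := (s ∩ A) \ J l) (c := c) (Or.inr (Or.inr ⟨l,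
    h.mono (sdiff_subset.trans inter_subset_left), 0, fun i hi => by simp [hi]⟩))
  have b2 := lo x (s := s ∩ J l) (c := c) (Or.inr (Or.inr ⟨l, h.mono inter_subset_left, r,
    fun i hi => ⟨by rw [mem_inter, (hr i hi).1]; simp [hi], fun h' => (hr i hi).2
      (mem_inter.1 h').1⟩⟩))
  have b3 := bd (s := (s ∩ J l) \ A) (c := c) (a := fun i => f i x) (N := u l ^ 2)
    ((card_le_card (sdiff_subset.trans inter_subset_right)).trans (Jc l).le) zero_le_one
    (by positivity) (fun i hi => c1 (Or.inr (Or.inr ⟨l, h, r, hr⟩))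
      (mem_inter.1 (mem_sdiff.1 hi).1).1) fun i hi => th i (mem_sdiff.1 hi).2
  have b4 : ((u l ^ 2 : ℕ) : ℝ) * (1 * (‖x‖ / u l ^ 2)) = ‖x‖ := by push_cast; field_simp
  have b5 := sum_inter_add_sum_sdiff (s ∩ A) (J l) fun i => c i * f i x
  have b6 := sum_inter_add_sum_sdiff (s ∩ J l) A fun i => c i * f i x
  rw [inter_right_comm] at b6
  rw [b4] at b3
  rw [abs_le] at *
  constructor <;> linarith [b1.1, b1.2, b2.1, b2.2, b3.1, b3.2]

lemma one (A : Finset ℕ) : ∑ i ∈ A, e i = ∑ i ∈ A, (1:ℝ) • e i := by simp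


lemma fI (B : Finset ℕ) (s : Finset ℕ) (ω : ℝ) :
    ∑ i ∈ s, ω * f i (∑ i ∈ B, e i) = (s ∩ B).card * ω := by
  rw [one, sP B s (fun _ => 1) fun _ => ω]; simp

lemma oc : OC e u := by
  refine ⟨2, fun A B k hc _ _ => hi _ (by positivity) fun s c h => ?_⟩
  have n0 := norm_nonneg (∑ i ∈ B, e i)
  rw [one, sP]
  have U : ∀ N ω, 0 ≤ ω → AU N ω s c → (∀ t c', AU N ω t c' → Adm t c') →
      |∑ i ∈ s ∩ A, c i * 1| ≤ 2 * ‖∑ i ∈ B, e i‖ := fun N ω h0 h1 h2 => by
    obtain ⟨D, d1, d2⟩ := exists_subset_card_eq (s := B) (n := (s ∩ A).card)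
      (hc ▸ card_le_card inter_subset_right)
    have a1 := lo (∑ i ∈ B, e i) (h2 D (fun _ => ω) ⟨d2.le.trans ((card_le_card
      inter_subset_left).trans h1.1), fun _ _ => (abs_of_nonneg h0).le⟩)
    rw [fI, inter_eq_left.2 d1, d2, abs_of_nonneg (by positivity)] at a1
    have a2 := bd (s := s ∩ A) (c := c) (a := fun _ => 1) le_rfl h0 zero_le_one
      (fun i hi => h1.2 i (mem_inter.1 hi).1) fun _ _ => by simp
    rw [mul_one ω] at a2
    linarith
  rcases h with h | ⟨l, h⟩ | ⟨l, h, -⟩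
  · exact U _ _ zero_le_one h fun _ _ h' => Or.inl h'
  · exact U _ _ (by positivity) h fun _ _ h' => Or.inr (Or.inl ⟨l, h'⟩)
  have p : (0:ℝ) ≤ 1 / u l := by positivity
  obtain ⟨D, d1, d2⟩ := exists_subset_card_eq (s := B) (n := min (s ∩ A).card (u l ^ 2))
    ((min_le_left _ _).trans (hc ▸ card_le_card inter_subset_right))
  have a1 := lo (∑ i ∈ B, e i) (s := D ∪ J l) (c := fun _ => 1 / u l) (Or.inr (Or.inr ⟨l,
    ⟨(card_union_le _ _).trans (by rw [d2, Jc]; omega), fun _ _ => (abs_of_nonneg p).le⟩,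
    u (l + 1) + u l ^ 2, fun i hi => ⟨by simp [hi, (mem_Ico.1 hi).2], fun _ => rfl⟩⟩))
  rw [fI, abs_of_nonneg (by positivity)] at a1
  have a3 : (s ∩ A).card ≤ 2 * ((D ∪ J l) ∩ B).card := by
    have b1 : D.card ≤ ((D ∪ J l) ∩ B).card :=
      card_le_card (subset_inter subset_union_left d1)
    have b2 := (card_le_card (inter_subset_left (s₂ := A))).trans h.1
    omega
  have a2 := bd (s := s ∩ A) (c := c) (a := fun _ => 1) a3 p zero_le_one
    (fun i hi => h.2 i (mem_inter.1 hi).1) fun _ _ => by simp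
  push_cast at a2
  linarith

lemma alt (a b : ℕ) : |∑ i ∈ Ico a b, (-1:ℝ) ^ i| ≤ 1 := by
  rcases le_total a b with h | h
  · rw [sum_Ico_eq_sub _ h, neg_one_geom_sum, neg_one_geom_sum]
    split_ifs <;> norm_num
  · simp [Ico_eq_empty_of_le h]

lemma ynorm (m : ℕ) : ‖∑ i ∈ J (m + 1), (-1:ℝ) ^ i • e i‖ ≤ u m ^ 2 := by
  have um := u1 m
  have um2 : (1:ℝ) ≤ u m ^ 2 := one_le_pow₀ um
  have mo : ∀ {a b : ℕ}, a ≤ b → (u a : ℝ) ≤ u b := fun h => by exact_mod_cast umono.monotone h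
  refine hi _ (by positivity) fun s c h => ?_
  rw [sP]
  have B : ∀ {N : ℕ} {ω : ℝ}, 0 ≤ ω → AU N ω s c →
      |∑ i ∈ s ∩ J (m + 1), c i * (-1) ^ i| ≤ N * (ω * 1) ∧
      |∑ i ∈ s ∩ J (m + 1), c i * (-1) ^ i| ≤ (u (m + 1) ^ 2 : ℕ) * (ω * 1) := fun h0 h1 =>
    ⟨bd ((card_le_card inter_subset_left).trans h1.1) h0 zero_le_one
      (fun i hi => h1.2 i (mem_inter.1 hi).1) fun _ _ => by simp,
    bd ((card_le_card inter_subset_right).trans (Jc _).le) h0 zero_le_one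
      (fun i hi => h1.2 i (mem_inter.1 hi).1) fun _ _ => by simp⟩
  rcases h with h | ⟨l, h⟩ | ⟨l, h, r, hr⟩
  · have := (B zero_le_one h).1
    norm_num at this
    linarith
  · have ul := u1 l
    obtain ⟨b1, b2⟩ := B (by positivity) h
    rcases le_or_gt l m with k | k
    · refine b1.trans ?_
      rw [u, mul_one, mul_one_div, div_le_iff₀ (by positivity)]
      have := mo k
      push_cast
      calc (u l:ℝ) ^ 4 = u l ^ 2 * u l ^ 2 := by ring
        _ ≤ _ := by gcongr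
    · refine b2.trans (le_trans ?_ um2)
      rw [mul_one, mul_one_div, div_le_one (by positivity)]
      have := mo (show m + 1 ≤ l from k)
      push_cast
      gcongr
  · have ul := u1 l
    obtain ⟨b1, b2⟩ := B (by positivity) h
    rcases lt_trichotomy l (m + 1) with k | k | k
    · refine b1.trans ?_
      rw [mul_one, mul_one_div, div_le_iff₀ (by positivity)]
      have a1 := mo (show l ≤ m by omega)
      have a2 : (2:ℝ) ≤ u m := by have := u2 m; exact_mod_cast (by omega : 2 ≤ u m)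
      push_cast
      calc 2 * (u l:ℝ) ^ 2 = 2 * u l * u l := by ring
        _ ≤ u m * u m * u l := by gcongr
        _ = _ := by ring
    · subst k
      have e1 : s ∩ J (m + 1) = Ico (u (m + 2)) (min r (u (m + 2) + u (m + 1) ^ 2)) := by
        ext i
        rw [mem_inter, mem_Ico, lt_min_iff]
        constructor
        · rintro ⟨a1, a2⟩
          exact ⟨(mem_Ico.1 a2).1, (hr i a2).1.1 a1, (mem_Ico.1 a2).2⟩
        · rintro ⟨a1, a2, a3⟩
          exact ⟨(hr i (mem_Ico.2 ⟨a1, a3⟩)).1.2 a2, mem_Ico.2 ⟨a1, a3⟩⟩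
      rw [sum_congr rfl fun i hi => by rw [(hr i (mem_inter.1 hi).2).2 (mem_inter.1 hi).1],
        ← mul_sum, e1, abs_mul, abs_of_nonneg (by positivity)]
      refine le_trans (mul_le_one₀ ((div_le_one (by positivity)).2 ul) (abs_nonneg _)
        (alt _ _)) um2
    · refine b2.trans (le_trans ?_ um2)
      rw [mul_one, mul_one_div, div_le_one (by positivity)]
      have a1 := mo (show m + 1 + 1 ≤ l from k)
      have a2 := u1 (m + 1)
      rw [u] at a1
      push_cast at a1 ⊢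
      exact (pow_le_pow_right₀ a2 (by norm_num)).trans a1

lemma npg : ¬ PG e f u := by
  rintro ⟨C, hC⟩
  obtain ⟨m, hm⟩ := exists_nat_gt C
  have um := u1 m
  have hmu : (m:ℝ) ≤ u m ^ 2 := by
    have := u2 m
    have h2 : (m:ℝ) ≤ u m := by exact_mod_cast (by omega : m ≤ u m)
    nlinarith
  set n := u (m + 2) with hn
  set M := u (m + 1) ^ 2 with hM
  have Mn : M ≤ n := Nat.pow_le_pow_right (by have := u2 (m + 1); omega) (by norm_num)
  have hJ : J (m + 1) = Ico n (n + M) := rfl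
  set a : ℕ → ℝ := fun i => if i < n then 1 else (-1) ^ i with ha
  have a1 : ∀ i, |a i| = 1 := fun i => by simp only [ha]; split_ifs <;> simp
  set x := ∑ i ∈ range (n + M), a i • e i with hx
  have fx : ∀ j, f j x = if j < n + M then a j else 0 := fun j => by
    rw [hx, fs]; simp only [mem_range]
  clear_value x
  have h1 := hC x (m + 2) (Ico M (n + M)) (by simp [hn]) fun i hi j _ => by
    rw [fx, fx, if_pos (mem_Ico.1 hi).2, a1]
    split_ifs
    · exact (a1 j).le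
    · simp
  have h2 : x - P e f (range n) x = ∑ i ∈ J (m + 1), (-1:ℝ) ^ i • e i := by
    refine sub_eq_zero.1 (sch.2.2.1 _ fun j => ?_)
    rw [map_sub, map_sub, P, fs, fs, fx, hJ]
    simp only [mem_range, mem_Ico, ha]
    split_ifs <;> first | omega | simp
  have h3 := lo (x - P e f (Ico M (n + M)) x) (s := range M) (c := fun _ => 1 / u (m + 1))
    (Or.inr (Or.inr ⟨m + 1, ⟨by rw [card_range]; omega, fun _ _ => (abs_of_nonneg
      (by positivity)).le⟩, 0, fun i hi => by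
        have : n ≤ i := (mem_Ico.1 hi).1
        simp only [mem_range]
        exact ⟨by omega, fun _ => trivial⟩⟩))
  have h4 : ∀ i ∈ range M, 1 / (u (m + 1):ℝ) * f i (x - P e f (Ico M (n + M)) x) =
      1 / u (m + 1) := fun i hi => by
    have := mem_range.1 hi
    rw [map_sub, P, fs, fx, if_pos (by omega), if_neg (by rw [mem_Ico]; omega)]
    simp only [ha]
    rw [if_pos (by omega)]; simp
  rw [sum_congr rfl h4, sum_const, card_range, nsmul_eq_mul, abs_of_nonneg (by positivity)] at h3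
  have h5 : (M:ℝ) * (1 / u (m + 1)) = u m ^ 2 * u m ^ 2 := by
    have := u1 (m + 1)
    rw [hM]; push_cast; field_simp; rw [u]; push_cast; ring
  rw [← hn, h2] at h1
  have h6 := ynorm m
  have h7 := norm_nonneg (∑ i ∈ J (m + 1), (-1:ℝ) ^ i • e i)
  have h8 : (0:ℝ) < u m ^ 2 := by positivity
  rcases le_total 0 C with k | k <;> nlinarith

theorem result :
    ∃ (n : ℕ → ℕ) (X : Type) (_ : NormedAddCommGroup X) (_ : NormedSpace ℝ X)
      (_ : CompleteSpace X) (e : ℕ → X) (f : ℕ → X →L[ℝ] ℝ), StrictMono n ∧ 0 < n 0 ∧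
      (∀ L N : ℕ, ∃ k, N ≤ k ∧ L * n k < n (k + 1)) ∧ IsSchauder e f ∧ QG e f n ∧ OC e n ∧
      ¬ PG e f n := by
  refine ⟨u, X, inferInstance, inferInstance, inferInstance, e, f, umono, by decide,
    fun L N => ⟨L + N, by omega, ?_⟩, sch, qg, oc, npg⟩
  have h := u2 (L + N)
  have h2 : u (L + N) ≤ u (L + N) ^ 3 := Nat.le_self_pow (by norm_num) _
  calc L * u (L + N) < u (L + N) ^ 3 * u (L + N) := Nat.mul_lt_mul_of_pos_right (by omega) (by omega)
    _ = _ := by rw [u]; ring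

end Pool.Agent.Results.MP_6095cf_an.Counter
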